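import Mathlib
import Pool.Agent.U638.BS.Stm

/-!
# Project BS, package SM5: the projectivity for `p = 5`
-/

set_option autoImplicit false

namespace Pool.Agent.U638.BS

open Polynomial

namespace SM5

local instance fact5 : Fact (Nat.Prime 5) := ⟨by norm_num⟩

theorem noroot : ∀ a : ZMod 5, a ^ 3 + a + 1 ≠ 0 := by
  decide

/-- triples of coordinates with respect to `1, θ, θ ^ 2` -/
abbrev T : Type := ZMod 5 × ZMod 5 × ZMod 5

/-- multiplication, with `θ ^ 3 = - θ - 1` -/
def mul (s t : T) : T :=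
  (s.1 * t.1 - (s.2.1 * t.2.2 + s.2.2 * t.2.1),
   s.1 * t.2.1 + s.2.1 * t.1 - (s.2.1 * t.2.2 + s.2.2 * t.2.1) - s.2.2 * t.2.2,
   s.1 * t.2.2 + s.2.1 * t.2.1 + s.2.2 * t.1 - s.2.2 * t.2.2)

/-- powers -/
def pw (t : T) : ℕ → T
  | 0 => (1, 0, 0)
  | n + 1 => mul (pw t n) t

/-- adjugate -/
def adj (t : T) : T :=
  ((t.1 - t.2.2) * (t.1 - t.2.2) + t.2.1 * t.2.1 + t.2.1 * t.2.2,
   -(t.1 * t.2.1 + t.2.2 * t.2.2),
   t.2.1 * t.2.1 - t.1 * t.2.2 + t.2.2 * t.2.2)

theorem adj_ok : ∀ t : T, t ≠ 0 → (mul t (adj t)).1 ≠ 0 ∧ (mul t (adj t)).2 = 0 := by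
  decide +kernel

theorem cond : ∀ t : T,
    mul (mul (0, 0, 1) (pw t 5 + (3, 0, 0))) (pw t 4) ≠ (1, 0, 0) := by
  decide +kernel

theorem cond2 : pw (0, 0, 3) 31 ≠ (1, 0, 0) := by
  decide +kernel

section

variable {F : Type} [Field F] (φ : ZMod 5 →+* F) (th : F)

/-- evaluation -/
def ev (t : T) : F := φ t.1 + φ t.2.1 * th + φ t.2.2 * th ^ 2

theorem ev_mul (h : th ^ 3 + th + 1 = 0) (s t : T) :
    ev φ th (mul s t) = ev φ th s * ev φ th t := by
  simp only [ev, mul, map_add, map_sub, map_mul]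
  linear_combination (-(φ s.2.1 * φ t.2.2 + φ s.2.2 * φ t.2.1 + φ s.2.2 * φ t.2.2 * th)) * h

theorem ev_one : ev φ th (1, 0, 0) = 1 := by
  simp [ev]

theorem ev_add (s t : T) : ev φ th (s + t) = ev φ th s + ev φ th t := by
  simp only [ev, Prod.fst_add, Prod.snd_add, map_add]
  ring

theorem ev_sub (s t : T) : ev φ th (s - t) = ev φ th s - ev φ th t := by
  simp only [ev, Prod.fst_sub, Prod.snd_sub, map_sub]
  ring

theorem ev_pw (h : th ^ 3 + th + 1 = 0) (t : T) (n : ℕ) : ev φ th (pw t n) = ev φ th t ^ n := by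
  induction n with
  | zero => rw [pw, ev_one, pow_zero]
  | succ n ih => rw [pw, ev_mul φ th h, ih, pow_succ]

theorem ev_ne (h : th ^ 3 + th + 1 = 0) (t : T) (ht : t ≠ 0) : ev φ th t ≠ 0 := by
  intro h0
  obtain ⟨h1, h2⟩ := adj_ok t ht
  have h3 := ev_mul φ th h t (adj t)
  rw [h0, zero_mul] at h3
  have h4 : mul t (adj t) = ((mul t (adj t)).1, 0, 0) := Prod.ext rfl h2
  rw [h4] at h3
  simp only [ev, map_zero, zero_mul, add_zero] at h3
  exact h1 ((map_eq_zero φ).1 h3)

theorem ev_inj (h : th ^ 3 + th + 1 = 0) : Function.Injective (ev φ th) := by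
  intro s t hst
  by_contra hne
  exact ev_ne φ th h (s - t) (sub_ne_zero.2 hne) (by rw [ev_sub, hst, sub_self])

end

theorem exists_root (F : Type) [Field F] (hF : Nat.card F = 5 ^ 3) : ∃ th : F, th ^ 3 + th + 1 = 0 := by
  have hm : (X ^ 3 + X + 1 : (ZMod 5)[X]).Monic := by monicity!
  have hd : (X ^ 3 + X + 1 : (ZMod 5)[X]).natDegree = 3 := by compute_degree!
  have hirr : Irreducible (X ^ 3 + X + 1 : (ZMod 5)[X]) := by
    rw [Polynomial.irreducible_iff_roots_eq_zero_of_degree_le_three (by omega) (by omega)]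
    rw [Multiset.eq_zero_iff_forall_notMem]
    intro a ha
    rw [mem_roots hm.ne_zero, IsRoot.def] at ha
    simp only [eval_add, eval_pow, eval_X, eval_one] at ha
    exact noroot a ha
  have : Fact (Irreducible (X ^ 3 + X + 1 : (ZMod 5)[X])) := ⟨hirr⟩
  let K := AdjoinRoot (X ^ 3 + X + 1 : (ZMod 5)[X])
  let pb := AdjoinRoot.powerBasis (f := (X ^ 3 + X + 1 : (ZMod 5)[X])) hm.ne_zero
  have : Module.Finite (ZMod 5) K := pb.finite
  have : Finite K := Module.finite_of_finite (ZMod 5)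
  have : Finite F := Nat.finite_of_card_ne_zero (by rw [hF]; norm_num)
  have hK : Nat.card K = 5 ^ 3 := by
    have h1 := Module.natCard_eq_pow_finrank (K := ZMod 5) (V := K)
    rw [h1, pb.finrank, Nat.card_zmod]
    simp only [pb, AdjoinRoot.powerBasis_dim, hd]
  have := Fintype.ofFinite K
  have := Fintype.ofFinite F
  let e : K ≃+* F := FiniteField.ringEquivOfCardEq (K := K) (K' := F) (by
    rw [← Nat.card_eq_fintype_card, ← Nat.card_eq_fintype_card, hK, hF])
  refine ⟨e (AdjoinRoot.root _), ?_⟩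
  have h1 : (AdjoinRoot.root (X ^ 3 + X + 1 : (ZMod 5)[X])) ^ 3 +
      AdjoinRoot.root (X ^ 3 + X + 1 : (ZMod 5)[X]) + 1 = 0 := by
    have h2 : AdjoinRoot.mk (X ^ 3 + X + 1 : (ZMod 5)[X]) (X ^ 3 + X + 1) = 0 :=
      AdjoinRoot.mk_self
    simpa only [map_add, map_pow, AdjoinRoot.mk_X, map_one] using h2
  have h2 := congrArg e h1
  simpa only [map_add, map_pow, map_one, map_zero] using h2

end SM5

/-- **SM5** -/
theorem sm5_ok : S_SM 5 := by
  intro F _ hF
  have : Fact (Nat.Prime 5) := ⟨by norm_num⟩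
  have : Finite F := Nat.finite_of_card_ne_zero (by rw [hF]; norm_num)
  have := Fintype.ofFinite F
  have hF' : Fintype.card F = 5 ^ 3 := by rw [← Nat.card_eq_fintype_card, hF]
  have : CharP F 5 := charP_of_card_eq_prime_pow hF'
  obtain ⟨th, hth⟩ := SM5.exists_root F hF
  let φ : ZMod 5 →+* F := ZMod.castHom (dvd_refl 5) F
  have hinj := SM5.ev_inj φ th hth
  have hsurj : Function.Surjective (SM5.ev φ th) := by
    refine ((Fintype.bijective_iff_injective_and_card _).2 ⟨hinj, ?_⟩).2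
    rw [hF']
    simp [SM5.T, Fintype.card_prod, ZMod.card]
  have hth0 : th ≠ 0 := by
    rintro rfl
    simp at hth
  have h3 : SM5.ev φ th (3, 0, 0) = 3 := by
    simp only [SM5.ev, map_zero, zero_mul, add_zero]
    exact map_ofNat φ 3
  have h2 : SM5.ev φ th (0, 0, 1) = th ^ 2 := by
    simp [SM5.ev]
  have h4 : SM5.ev φ th (0, 0, 3) = 3 * th ^ 2 := by
    have h5 : φ 3 = 3 := map_ofNat φ 3
    simp only [SM5.ev, map_zero, zero_mul, zero_add, h5]
  refine ⟨!![0, 1, 0; 1, 0, 0; 3 * th ^ 2, 0, th ^ 2], ?_, ?_⟩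
  · rw [Matrix.det_fin_three]
    simp [hth0]
  · rintro (x | y) (t | z) c hc h
    · have e0 := congrFun h 0
      have e1 := congrFun h 1
      have e2 := congrFun h 2
      simp [vec, Matrix.mulVec, dotProduct, Fin.sum_univ_three] at e0 e1 e2
      obtain ⟨s, rfl⟩ := hsurj x
      apply SM5.cond s
      apply hinj
      rw [SM5.ev_mul φ th hth, SM5.ev_mul φ th hth, SM5.ev_add, SM5.ev_pw φ th hth,
        SM5.ev_pw φ th hth, h3, h2, SM5.ev_one]
      have : th ^ 2 * (SM5.ev φ th s ^ 5 + 3) = c * t ^ 5 := by rw [← e2]; ring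
      rw [this, e0]
      calc c * t ^ 5 * c ^ 4 = (c * t) ^ 5 := by ring
        _ = 1 := by rw [← e1, one_pow]
    · have e0 := congrFun h 0
      have e1 := congrFun h 1
      have e2 := congrFun h 2
      simp [vec, Matrix.mulVec, dotProduct, Fin.sum_univ_three] at e0 e1 e2
      subst e0
      rw [← e1] at e2
      have h5 := z.2
      have h6 : z.1 = SM5.ev φ th (0, 0, 3) := by
        rw [h4]
        simpa using e2.symm
      rw [h6, ← SM5.ev_pw φ th hth, ← SM5.ev_one φ th] at h5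
      exact SM5.cond2 (hinj h5)
    · have e0 := congrFun h 0
      have e1 := congrFun h 1
      have e2 := congrFun h 2
      simp [vec, Matrix.mulVec, dotProduct, Fin.sum_univ_three] at e0 e1 e2
      have h5 := y.2
      have h6 : t = 0 := by
        rcases e1 with h | h
        · exact absurd h hc
        · exact h
      rw [h6] at e2
      have h7 : y.1 = 0 := by
        have : th ^ 2 * y.1 = 0 := by rw [e2]; simp
        rcases mul_eq_zero.1 this with h | h
        · exact absurd h (pow_ne_zero 2 hth0)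
        · exact h
      rw [h7] at h5
      simp at h5
    · have e0 := congrFun h 0
      simp [vec, Matrix.mulVec, dotProduct, Fin.sum_univ_three] at e0

end Pool.Agent.U638.BS

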